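import Mathlib

/-!
# Shapes of the edges of a grid and the places of their points

Coordinates `u`, `v`; the shapes are used for `(u, v) = (x, y)` and for `(u, v) = (y, x)`.
-/

set_option autoImplicit false

namespace Pool.Agent.Helper40.DG

/-- the shapes of the edges -/
inductive Sh
  | ax
  | yp (j : ℕ)
  | xu (c : ℕ)
  | xp
  | up (c : ℕ)
  | pd (c : ℕ)
  | dd (c r : ℕ)
  | pp (j : ℕ)
  | pa (j : ℕ)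
  | pb (j : ℕ)
  | qa (j : ℕ)
  | qb (j : ℕ)
  | cc (j : ℕ)
  | uu
  | uq
  | ud
  | qd
  deriving DecidableEq

/-- what is used about the points of the edge of a shape -/
def Fct (M : ℕ) : Sh → ℝ → ℝ → Prop
  | .ax, u, _ => u = 0 ∧ ⌊u⌋ = 0
  | .yp _, u, v => 0 < u ∧ v < -1
  | .xu _, u, v => 0 < u ∧ u < 2 * M ∧ 2 * M + 2 < v
  | .xp, u, v => 2 * M < u ∧ -1 < v ∧ v < 0
  | .up c, u, v => c < M ∧ ⌊u⌋ = 2 * c + 1 ∧ u = ⌊u⌋ ∧ 1 ≤ u ∧ u ≤ 2 * M - 1 ∧ -1 < v ∧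
      v < 2 * M + 2
  | .pd c, u, v => c < M ∧ ⌊u⌋ = 2 * c + 2 ∧ u = ⌊u⌋ ∧ 1 ≤ u ∧ u ≤ 2 * M ∧ -1 < v ∧ v < 2
  | .dd c r, u, v => c < M ∧ ⌊u⌋ = 2 * c + 2 ∧ u = ⌊u⌋ ∧ 1 ≤ u ∧ u ≤ 2 * M ∧ 2 < v ∧
      v < 2 * M ∧ 2 * r + 2 ≤ ⌊v⌋ ∧ ⌊v⌋ ≤ 2 * r + 3
  | .pp j, u, v => ⌊u⌋ = j + 1 ∧ u ≠ ⌊u⌋ ∧ 1 ≤ u ∧ u < 2 * M ∧ v = -1
  | .pa j, u, v => ⌊u⌋ = j + 1 ∧ u ≠ ⌊u⌋ ∧ 1 ≤ u ∧ u < 2 * M ∧ -1 < v ∧ v < -1 / 2 ∧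
      u - v = ⌊u⌋ + 1
  | .qa j, u, v => ⌊u⌋ = j + 1 ∧ u ≠ ⌊u⌋ ∧ 1 ≤ u ∧ u < 2 * M ∧ -1 < v ∧ v < -1 / 2 ∧
      u + v = ⌊u⌋
  | .pb j, u, v => ⌊u⌋ = j + 1 ∧ u ≠ ⌊u⌋ ∧ 1 ≤ u ∧ u < 2 * M ∧ -1 < v ∧ v < -3 / 4 ∧
      u - 2 * v = ⌊u⌋ + 2
  | .qb j, u, v => ⌊u⌋ = j + 1 ∧ u ≠ ⌊u⌋ ∧ 1 ≤ u ∧ u < 2 * M ∧ -1 < v ∧ v < -3 / 4 ∧
      u + 2 * v = ⌊u⌋ - 1
  | .cc j, u, v => ⌊u⌋ = j + 1 ∧ u ≠ ⌊u⌋ ∧ 1 ≤ u ∧ u < 2 * M ∧ -3 / 4 < v ∧ v < -1 / 2 ∧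
      u = ⌊u⌋ + 1 / 2
  | .uu, u, v => u + v = 4 * M + 1 ∧ 2 * M - 1 < u ∧ 2 * M - 1 < v
  | .uq, u, v => 7 * u + 5 * v = 24 * M + 3 ∧ 2 * M - 1 < u ∧ u < 2 * M + 1 / 4
  | .ud, u, v => 2 * u + v = 6 * M ∧ 2 * M - 1 < u ∧ u < 2 * M
  | .qd, u, v => u = v ∧ 2 * M < u ∧ u < 2 * M + 1 / 4

/-- the shapes of the vertical edges -/
def Sh.vert : Sh → Prop
  | .ax => True
  | .up _ => True
  | .pd _ => True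
  | .dd _ _ => True
  | _ => False

/-- the shapes of the edges with the same outer end -/
def Sh.apex : Sh → Sh → Prop
  | .yp _, .yp _ => True
  | .xu _, .xu _ => True
  | _, _ => False

/-- the two shapes which are symmetric -/
def Sh.sym : Sh → Prop
  | .uu => True
  | .qd => True
  | _ => False

theorem same {M : ℕ} (hM : 1 ≤ M) {a b : Sh} {u v : ℝ} (ha : Fct M a u v) (hb : Fct M b u v) :
    a = b ∨ Sh.apex a b := by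
  have hM' : (1 : ℝ) ≤ M := by exact_mod_cast hM
  cases a <;> cases b <;> first
    | exact Or.inl rfl
    | exact Or.inr trivial
    | (exfalso; simp only [Fct] at ha hb; casesm* _ ∧ _; first | omega | linarith | contradiction)
    | (left; simp only [Fct] at ha hb; casesm* _ ∧ _; congr 1 <;> omega)

theorem cross {M : ℕ} (hM : 1 ≤ M) {a b : Sh} {u v : ℝ} (ha : Fct M a u v) (hb : Fct M b v u) :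
    (Sh.vert a ∧ Sh.vert b) ∨ (Sh.sym a ∧ a = b) := by
  have hM' : (1 : ℝ) ≤ M := by exact_mod_cast hM
  cases a <;> cases b <;> first
    | exact Or.inl ⟨trivial, trivial⟩
    | exact Or.inr ⟨trivial, rfl⟩
    | (exfalso; simp only [Fct] at ha hb; casesm* _ ∧ _; first | omega | linarith | contradiction)

end Pool.Agent.Helper40.DG
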