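import Pool.Agent.Helper82.DG.Lay
import Pool.Agent.Helper40.DG.Shape

/-!
# Crossings in the layout of a grid are perpendicular
-/

set_option autoImplicit false

namespace Pool.Agent.Helper40.DG

open Pool.Agent.Helper18.RAC Pool.Agent.Helper82.DG Complex

section comb

variable {p q a b t : ℝ}

theorem comb_lt (hp : 0 < p) (hq : 0 < q) (h : p + q = 1) (ha : a < t) (hb : b ≤ t) :
    p * a + q * b < t := by
  have h0 : t = p * t + q * t := by rw [← add_mul, h, one_mul]
  have h1 := mul_lt_mul_of_pos_left ha hp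
  have h2 := mul_le_mul_of_nonneg_left hb hq.le
  linarith

theorem comb_lt' (hp : 0 < p) (hq : 0 < q) (h : p + q = 1) (ha : a ≤ t) (hb : b < t) :
    p * a + q * b < t := by
  have h0 : t = p * t + q * t := by rw [← add_mul, h, one_mul]
  have h1 := mul_le_mul_of_nonneg_left ha hp.le
  have h2 := mul_lt_mul_of_pos_left hb hq
  linarith

theorem comb_gt (hp : 0 < p) (hq : 0 < q) (h : p + q = 1) (ha : t < a) (hb : t ≤ b) :
    t < p * a + q * b := by
  have h0 : t = p * t + q * t := by rw [← add_mul, h, one_mul]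
  have h1 := mul_lt_mul_of_pos_left ha hp
  have h2 := mul_le_mul_of_nonneg_left hb hq.le
  linarith

theorem comb_gt' (hp : 0 < p) (hq : 0 < q) (h : p + q = 1) (ha : t ≤ a) (hb : t < b) :
    t < p * a + q * b := by
  have h0 : t = p * t + q * t := by rw [← add_mul, h, one_mul]
  have h1 := mul_le_mul_of_nonneg_left ha hp.le
  have h2 := mul_lt_mul_of_pos_left hb hq
  linarith

end comb

theorem floor_of {u : ℝ} {j : ℕ} (h1 : (j : ℝ) + 1 < u) (h2 : u < j + 2) :
    ⌊u⌋ = (j : ℤ) + 1 ∧ u ≠ (⌊u⌋ : ℝ) := by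
  have h : ⌊u⌋ = (j : ℤ) + 1 := by
    rw [Int.floor_eq_iff]
    push_cast
    constructor <;> linarith
  refine ⟨h, ?_⟩
  rw [h]
  push_cast
  intro h3
  linarith

theorem floor_nat {u : ℝ} {m : ℕ} (h : u = m) : ⌊u⌋ = (m : ℤ) ∧ u = (⌊u⌋ : ℝ) := by
  subst h
  simp

section facts

variable {M : ℕ} {p q u v : ℝ}

theorem fct_ax (hu : u = 0) : Fct M .ax u v := by
  subst hu
  exact ⟨rfl, by simp⟩

theorem fct_yp {j : ℕ} {s : ℝ} (hp : 0 < p) (hq : 0 < q) (hpq : p + q = 1)
    (hs : 2 * M + 3 < s) (hu : u = p * 0 + q * (j + 1)) (hv : v = p * (-s) + q * (-1)) :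
    Fct M (.yp j) u v := by
  have hM : (0 : ℝ) ≤ M := by positivity
  have hj : (0 : ℝ) ≤ j := by positivity
  refine ⟨?_, ?_⟩
  · rw [hu]; exact comb_gt' hp hq hpq le_rfl (by linarith)
  · rw [hv]; exact comb_lt hp hq hpq (by linarith) le_rfl

theorem fct_xu {c : ℕ} {n : ℝ} (hp : 0 < p) (hq : 0 < q) (hpq : p + q = 1)
    (hn : 2 * M + 3 < n) (hc : c < M) (hu : u = p * 0 + q * (2 * c + 1))
    (hv : v = p * n + q * (2 * M + 2)) : Fct M (.xu c) u v := by
  have hc' : (c : ℝ) + 1 ≤ M := by exact_mod_cast hc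
  have h0 : (0 : ℝ) ≤ c := by positivity
  refine ⟨?_, ?_, ?_⟩
  · rw [hu]; exact comb_gt' hp hq hpq le_rfl (by linarith)
  · rw [hu]; exact comb_lt hp hq hpq (by linarith) (by linarith)
  · rw [hv]; exact comb_gt hp hq hpq (by linarith) le_rfl

theorem fct_xp {e : ℝ} (hp : 0 < p) (hq : 0 < q) (hpq : p + q = 1) (he : 2 * M + 3 < e)
    (hu : u = p * e + q * (2 * M)) (hv : v = p * 0 + q * (-1)) : Fct M .xp u v := by
  refine ⟨?_, ?_, ?_⟩
  · rw [hu]; exact comb_gt hp hq hpq (by linarith) le_rfl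
  · rw [hv]; exact comb_gt hp hq hpq (by linarith) le_rfl
  · rw [hv]; exact comb_lt' hp hq hpq le_rfl (by linarith)

theorem fct_up {c : ℕ} (hp : 0 < p) (hq : 0 < q) (hpq : p + q = 1) (hc : c < M)
    (hu : u = p * (2 * c + 1) + q * (2 * c + 1)) (hv : v = p * (2 * M + 2) + q * (-1)) :
    Fct M (.up c) u v := by
  have hc' : (c : ℝ) + 1 ≤ M := by exact_mod_cast hc
  have h0 : (0 : ℝ) ≤ c := by positivity
  have hu' : u = 2 * c + 1 := by rw [hu, ← add_mul, hpq, one_mul]
  have h := floor_nat (u := u) (m := 2 * c + 1) (by rw [hu']; push_cast; ring)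
  refine ⟨hc, by rw [h.1]; push_cast; ring, h.2, by linarith, by linarith, ?_, ?_⟩
  · rw [hv]; exact comb_gt hp hq hpq (by linarith) le_rfl
  · rw [hv]; exact comb_lt' hp hq hpq le_rfl (by linarith)

theorem fct_pd {c : ℕ} (hp : 0 < p) (hq : 0 < q) (hpq : p + q = 1) (hc : c < M)
    (hu : u = p * (2 * c + 2) + q * (2 * c + 2)) (hv : v = p * (-1) + q * 2) :
    Fct M (.pd c) u v := by
  have hc' : (c : ℝ) + 1 ≤ M := by exact_mod_cast hc
  have h0 : (0 : ℝ) ≤ c := by positivity
  have hu' : u = 2 * c + 2 := by rw [hu, ← add_mul, hpq, one_mul]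
  have h := floor_nat (u := u) (m := 2 * c + 2) (by rw [hu']; push_cast; ring)
  refine ⟨hc, by rw [h.1]; push_cast; ring, h.2, by linarith, by linarith, ?_, ?_⟩
  · rw [hv]; exact comb_gt' hp hq hpq le_rfl (by linarith)
  · rw [hv]; exact comb_lt hp hq hpq (by linarith) le_rfl

theorem fct_dd {c r : ℕ} (hp : 0 < p) (hq : 0 < q) (hpq : p + q = 1) (hc : c < M)
    (hr : r + 1 < M) (hu : u = p * (2 * c + 2) + q * (2 * c + 2))
    (hv : v = p * (2 * r + 2) + q * (2 * r + 4)) : Fct M (.dd c r) u v := by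
  have hc' : (c : ℝ) + 1 ≤ M := by exact_mod_cast hc
  have hr' : (r : ℝ) + 2 ≤ M := by exact_mod_cast hr
  have h0 : (0 : ℝ) ≤ c := by positivity
  have h1 : (0 : ℝ) ≤ r := by positivity
  have hu' : u = 2 * c + 2 := by rw [hu, ← add_mul, hpq, one_mul]
  have h := floor_nat (u := u) (m := 2 * c + 2) (by rw [hu']; push_cast; ring)
  have h2 : 2 * (r : ℝ) + 2 < v := by rw [hv]; exact comb_gt' hp hq hpq le_rfl (by linarith)
  have h3 : v < 2 * r + 4 := by rw [hv]; exact comb_lt hp hq hpq (by linarith) le_rfl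
  refine ⟨hc, by rw [h.1]; push_cast; ring, h.2, by linarith, by linarith, by linarith,
    by linarith, ?_, ?_⟩
  · rw [Int.le_floor]; push_cast; linarith
  · have h4 : ⌊v⌋ < 2 * r + 4 := by rw [Int.floor_lt]; push_cast; linarith
    omega

theorem cl_aux {j : ℕ} {a b : ℝ} (hp : 0 < p) (hq : 0 < q) (hpq : p + q = 1)
    (hj : j + 1 < 2 * M) (hu : u = p * a + q * b)
    (h : (j + 1 < a ∧ a < (j : ℝ) + 2 ∧ j + 1 ≤ b ∧ b ≤ (j : ℝ) + 2) ∨
      (j + 1 ≤ a ∧ a ≤ (j : ℝ) + 2 ∧ j + 1 < b ∧ b < (j : ℝ) + 2) ∨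
      (a = (j : ℝ) + 1 ∧ b = j + 2)) :
    ⌊u⌋ = (j : ℤ) + 1 ∧ u ≠ (⌊u⌋ : ℝ) ∧ 1 ≤ u ∧ u < 2 * M := by
  have hj' : (j : ℝ) + 2 ≤ 2 * M := by exact_mod_cast hj
  have hj0 : (0 : ℝ) ≤ j := by positivity
  have h1 : (j : ℝ) + 1 < u := by
    rw [hu]
    rcases h with h | h | h
    · exact comb_gt hp hq hpq h.1 h.2.2.1
    · exact comb_gt' hp hq hpq h.1 h.2.2.1
    · exact comb_gt' hp hq hpq h.1.ge (by linarith [h.2])
  have h2 : u < j + 2 := by
    rw [hu]
    rcases h with h | h | h
    · exact comb_lt hp hq hpq h.2.1 h.2.2.2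
    · exact comb_lt' hp hq hpq h.2.1 h.2.2.2
    · exact comb_lt hp hq hpq (by linarith [h.1]) h.2.le
  have h3 := floor_of h1 h2
  exact ⟨h3.1, h3.2, by linarith, by linarith⟩

theorem fct_pp {j : ℕ} (hp : 0 < p) (hq : 0 < q) (hpq : p + q = 1) (hj : j + 1 < 2 * M)
    (hu : u = p * (j + 1) + q * (j + 2)) (hv : v = p * (-1) + q * (-1)) :
    Fct M (.pp j) u v := by
  obtain ⟨h1, h2, h3, h4⟩ := cl_aux hp hq hpq hj hu (Or.inr (Or.inr ⟨rfl, rfl⟩))
  exact ⟨h1, h2, h3, h4, by rw [hv, ← add_mul, hpq, one_mul]⟩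

theorem fct_pa {j : ℕ} (hp : 0 < p) (hq : 0 < q) (hpq : p + q = 1) (hj : j + 1 < 2 * M)
    (hu : u = p * (j + 1) + q * (j + 3 / 2)) (hv : v = p * (-1) + q * (-1 / 2)) :
    Fct M (.pa j) u v := by
  obtain ⟨h1, h2, h3, h4⟩ := cl_aux hp hq hpq hj hu
    (Or.inr (Or.inl ⟨by linarith, by linarith, by linarith, by linarith⟩))
  refine ⟨h1, h2, h3, h4, ?_, ?_, ?_⟩
  · rw [hv]; exact comb_gt' hp hq hpq le_rfl (by linarith)
  · rw [hv]; exact comb_lt hp hq hpq (by linarith) le_rfl
  · rw [h1, hu, hv]; push_cast; linear_combination ((j : ℝ) + 2) * hpq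

theorem fct_pb {j : ℕ} (hp : 0 < p) (hq : 0 < q) (hpq : p + q = 1) (hj : j + 1 < 2 * M)
    (hu : u = p * (j + 1) + q * (j + 3 / 2)) (hv : v = p * (-1) + q * (-3 / 4)) :
    Fct M (.pb j) u v := by
  obtain ⟨h1, h2, h3, h4⟩ := cl_aux hp hq hpq hj hu
    (Or.inr (Or.inl ⟨by linarith, by linarith, by linarith, by linarith⟩))
  refine ⟨h1, h2, h3, h4, ?_, ?_, ?_⟩
  · rw [hv]; exact comb_gt' hp hq hpq le_rfl (by linarith)
  · rw [hv]; exact comb_lt hp hq hpq (by linarith) le_rfl
  · rw [h1, hu, hv]; push_cast; linear_combination ((j : ℝ) + 3) * hpq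

theorem fct_qa {j : ℕ} (hp : 0 < p) (hq : 0 < q) (hpq : p + q = 1) (hj : j + 1 < 2 * M)
    (hu : u = p * (j + 2) + q * (j + 3 / 2)) (hv : v = p * (-1) + q * (-1 / 2)) :
    Fct M (.qa j) u v := by
  obtain ⟨h1, h2, h3, h4⟩ := cl_aux hp hq hpq hj hu
    (Or.inr (Or.inl ⟨by linarith, by linarith, by linarith, by linarith⟩))
  refine ⟨h1, h2, h3, h4, ?_, ?_, ?_⟩
  · rw [hv]; exact comb_gt' hp hq hpq le_rfl (by linarith)
  · rw [hv]; exact comb_lt hp hq hpq (by linarith) le_rfl
  · rw [h1, hu, hv]; push_cast; linear_combination ((j : ℝ) + 1) * hpq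

theorem fct_qb {j : ℕ} (hp : 0 < p) (hq : 0 < q) (hpq : p + q = 1) (hj : j + 1 < 2 * M)
    (hu : u = p * (j + 2) + q * (j + 3 / 2)) (hv : v = p * (-1) + q * (-3 / 4)) :
    Fct M (.qb j) u v := by
  obtain ⟨h1, h2, h3, h4⟩ := cl_aux hp hq hpq hj hu
    (Or.inr (Or.inl ⟨by linarith, by linarith, by linarith, by linarith⟩))
  refine ⟨h1, h2, h3, h4, ?_, ?_, ?_⟩
  · rw [hv]; exact comb_gt' hp hq hpq le_rfl (by linarith)
  · rw [hv]; exact comb_lt hp hq hpq (by linarith) le_rfl
  · rw [h1, hu, hv]; push_cast; linear_combination (j : ℝ) * hpq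

theorem fct_cc {j : ℕ} (hp : 0 < p) (hq : 0 < q) (hpq : p + q = 1) (hj : j + 1 < 2 * M)
    (hu : u = p * (j + 3 / 2) + q * (j + 3 / 2)) (hv : v = p * (-1 / 2) + q * (-3 / 4)) :
    Fct M (.cc j) u v := by
  obtain ⟨h1, h2, h3, h4⟩ := cl_aux hp hq hpq hj hu
    (Or.inr (Or.inl ⟨by linarith, by linarith, by linarith, by linarith⟩))
  refine ⟨h1, h2, h3, h4, ?_, ?_, ?_⟩
  · rw [hv]; exact comb_gt hp hq hpq (by linarith) le_rfl
  · rw [hv]; exact comb_lt' hp hq hpq le_rfl (by linarith)
  · rw [h1, hu]; push_cast; linear_combination ((j : ℝ) + 3 / 2) * hpq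

theorem fct_uu (hp : 0 < p) (hq : 0 < q) (hpq : p + q = 1)
    (hu : u = p * (2 * M - 1) + q * (2 * M + 2)) (hv : v = p * (2 * M + 2) + q * (2 * M - 1)) :
    Fct M .uu u v := by
  refine ⟨?_, ?_, ?_⟩
  · rw [hu, hv]; linear_combination (4 * (M : ℝ) + 1) * hpq
  · rw [hu]; exact comb_gt' hp hq hpq le_rfl (by linarith)
  · rw [hv]; exact comb_gt hp hq hpq (by linarith) le_rfl

theorem fct_uq (hp : 0 < p) (hq : 0 < q) (hpq : p + q = 1)
    (hu : u = p * (2 * M - 1) + q * (2 * M + 1 / 4))
    (hv : v = p * (2 * M + 2) + q * (2 * M + 1 / 4)) : Fct M .uq u v := by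
  refine ⟨?_, ?_, ?_⟩
  · rw [hu, hv]; linear_combination (24 * (M : ℝ) + 3) * hpq
  · rw [hu]; exact comb_gt' hp hq hpq le_rfl (by linarith)
  · rw [hu]; exact comb_lt hp hq hpq (by linarith) le_rfl

theorem fct_ud (hp : 0 < p) (hq : 0 < q) (hpq : p + q = 1)
    (hu : u = p * (2 * M - 1) + q * (2 * M)) (hv : v = p * (2 * M + 2) + q * (2 * M)) :
    Fct M .ud u v := by
  refine ⟨?_, ?_, ?_⟩
  · rw [hu, hv]; linear_combination (6 * (M : ℝ)) * hpq
  · rw [hu]; exact comb_gt' hp hq hpq le_rfl (by linarith)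
  · rw [hu]; exact comb_lt hp hq hpq (by linarith) le_rfl

theorem fct_qd (hp : 0 < p) (hq : 0 < q) (hpq : p + q = 1)
    (hu : u = p * (2 * M + 1 / 4) + q * (2 * M)) (hv : v = p * (2 * M + 1 / 4) + q * (2 * M)) :
    Fct M .qd u v := by
  refine ⟨?_, ?_, ?_⟩
  · rw [hu, hv]
  · rw [hu]; exact comb_gt hp hq hpq (by linarith) le_rfl
  · rw [hu]; exact comb_lt' hp hq hpq le_rfl (by linarith)

end facts

/-- shape of a code -/
def shG : GE → Sh
  | .yp _ j => .yp j
  | .xu _ c => .xu c
  | .xp _ => .xp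
  | .up _ c => .up c
  | .pd _ c => .pd c
  | .dd _ c r => .dd c r
  | .pp _ j => .pp j
  | .pc _ j false => .pa j
  | .pc _ j true => .pb j
  | .pc' _ j false => .qa j
  | .pc' _ j true => .qb j
  | .cc _ j => .cc j
  | .uu => .uu
  | .uq _ => .uq
  | .ud _ => .ud
  | .qd => .qd

/-- side of a code -/
def sgG : GE → Bool
  | .yp σ _ => σ
  | .xu σ _ => σ
  | .xp σ => σ
  | .up σ _ => σ
  | .pd σ _ => σ
  | .dd σ _ _ => σ
  | .pp σ _ => σ
  | .pc σ _ _ => σ
  | .pc' σ _ _ => σ
  | .cc σ _ => σ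
  | .uu => false
  | .uq σ => σ
  | .ud σ => σ
  | .qd => false

def shF : GF → Sh
  | .ns => .ax
  | .ew => .ax
  | .g c => shG c

def sgF : GF → Bool
  | .ns => false
  | .ew => true
  | .g c => sgG c

/-- the code of a shape and a side -/
def invF : Sh → Bool → GF
  | .ax, false => .ns
  | .ax, true => .ew
  | .yp j, σ => .g (.yp σ j)
  | .xu c, σ => .g (.xu σ c)
  | .xp, σ => .g (.xp σ)
  | .up c, σ => .g (.up σ c)
  | .pd c, σ => .g (.pd σ c)
  | .dd c r, σ => .g (.dd σ c r)
  | .pp j, σ => .g (.pp σ j)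
  | .pa j, σ => .g (.pc σ j false)
  | .pb j, σ => .g (.pc σ j true)
  | .qa j, σ => .g (.pc' σ j false)
  | .qb j, σ => .g (.pc' σ j true)
  | .cc j, σ => .g (.cc σ j)
  | .uu, _ => .g .uu
  | .uq, σ => .g (.uq σ)
  | .ud, σ => .g (.ud σ)
  | .qd, _ => .g .qd

theorem invF_eq (k : GF) : invF (shF k) (sgF k) = k := by
  cases k with
  | ns => rfl
  | ew => rfl
  | g c => cases c <;> first | rfl | (rename_i ε; cases ε <;> rfl)

theorem ext_code {k k' : GF} (h1 : shF k = shF k') (h2 : sgF k = sgF k') : k = k' := by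
  rw [← invF_eq k, h1, h2, invF_eq]

/-- first coordinate -/
def cu (σ : Bool) (z : ℂ) : ℝ := cond σ z.im z.re

/-- second coordinate -/
def cv (σ : Bool) (z : ℂ) : ℝ := cond σ z.re z.im

theorem cu_not (σ : Bool) (z : ℂ) : cu (!σ) z = cv σ z := by cases σ <;> rfl

theorem cv_not (σ : Bool) (z : ℂ) : cv (!σ) z = cu σ z := by cases σ <;> rfl

theorem seg_coord {a b z : ℂ} (h : z ∈ openSegment ℝ a b) (σ : Bool) :
    ∃ p q : ℝ, 0 < p ∧ 0 < q ∧ p + q = 1 ∧ cu σ z = p * cu σ a + q * cu σ b ∧
      cv σ z = p * cv σ a + q * cv σ b := by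
  obtain ⟨p, q, hp, hq, hpq, rfl⟩ := h
  refine ⟨p, q, hp, hq, hpq, ?_, ?_⟩ <;> cases σ <;> simp [cu, cv]

section main

variable {M : ℕ} {n s e w : ℝ}

theorem seg_fct (hM : 1 ≤ M) (hn : 2 * M + 3 < n) (hs : 2 * M + 3 < s)
    (he : 2 * M + 3 < e) (hw : 2 * M + 3 < w) (k : GF) (hk : k.valid M) {z : ℂ}
    (hz : z ∈ openSegment ℝ (layX M n s e w (k.ends M).1) (layX M n s e w (k.ends M).2)) :
    Fct M (shF k) (cu (sgF k) z) (cv (sgF k) z) := by
  obtain ⟨p, q, hp, hq, hpq, hu, hv⟩ := seg_coord hz (sgF k)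
  have hc1 : ((2 * M - 1 : ℕ) : ℝ) = 2 * M - 1 := by
    rw [Nat.cast_sub (by omega)]; push_cast; ring
  have hc2 : ((M - 1 : ℕ) : ℝ) = M - 1 := by
    rw [Nat.cast_sub hM]; push_cast; ring
  cases k with
  | ns =>
    refine fct_ax ?_
    rw [hu]
    simp [sgF, cu, GF.ends, layX]
  | ew =>
    refine fct_ax ?_
    rw [hu]
    simp [sgF, cu, GF.ends, layX]
  | g c =>
    simp only [GF.valid] at hk
    simp only [GF.ends] at hu hv
    cases c with
    | yp σ j =>
      cases σ
      · exact fct_yp hp hq hpq hs (by refine hu.trans ?_; simp [cu, sgF, sgG, GE.ends, layX, lay])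
          (by refine hv.trans ?_; simp [cv, sgF, sgG, GE.ends, layX, lay])
      · exact fct_yp hp hq hpq hw (by refine hu.trans ?_; simp [cu, sgF, sgG, GE.ends, layX, lay])
          (by refine hv.trans ?_; simp [cv, sgF, sgG, GE.ends, layX, lay])
    | xu σ c =>
      cases σ
      · exact fct_xu hp hq hpq hn hk (by refine hu.trans ?_; simp [cu, sgF, sgG, GE.ends, layX, lay])
          (by refine hv.trans ?_; simp [cv, sgF, sgG, GE.ends, layX, lay])
      · exact fct_xu hp hq hpq he hk (by refine hu.trans ?_; simp [cu, sgF, sgG, GE.ends, layX, lay])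
          (by refine hv.trans ?_; simp [cv, sgF, sgG, GE.ends, layX, lay])
    | xp σ =>
      cases σ
      · exact fct_xp hp hq hpq he (by refine hu.trans ?_; simp [cu, sgF, sgG, GE.ends, layX, lay, hc1])
          (by refine hv.trans ?_; simp [cv, sgF, sgG, GE.ends, layX, lay])
      · exact fct_xp hp hq hpq hn (by refine hu.trans ?_; simp [cu, sgF, sgG, GE.ends, layX, lay, hc1])
          (by refine hv.trans ?_; simp [cv, sgF, sgG, GE.ends, layX, lay])
    | up σ c =>
      cases σ <;>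
      exact fct_up hp hq hpq hk (by refine hu.trans ?_; simp [cu, sgF, sgG, GE.ends, layX, lay])
          (by refine hv.trans ?_; simp [cv, sgF, sgG, GE.ends, layX, lay])
    | pd σ c =>
      cases σ <;>
      exact fct_pd hp hq hpq hk
          (by refine hu.trans ?_; simp [-mul_eq_mul_left_iff, cu, sgF, sgG, GE.ends, GN.D', layX, lay]; ring)
          (by refine hv.trans ?_; simp [cv, sgF, sgG, GE.ends, GN.D', layX, lay])
    | dd σ c r =>
      cases σ <;>
      exact fct_dd hp hq hpq hk.1 hk.2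
          (by refine hu.trans ?_; simp [cu, sgF, sgG, GE.ends, GN.D', layX, lay])
          (by refine hv.trans ?_; simp [-mul_eq_mul_left_iff, cv, sgF, sgG, GE.ends, GN.D', layX, lay]; ring)
    | pp σ j =>
      cases σ <;>
      exact fct_pp hp hq hpq hk (by refine hu.trans ?_; simp [-mul_eq_mul_left_iff, cu, sgF, sgG, GE.ends, layX, lay]; ring)
          (by refine hv.trans ?_; simp [cv, sgF, sgG, GE.ends, layX, lay])
    | pc σ j ε =>
      cases ε
      · cases σ <;>
        exact fct_pa hp hq hpq hk (by refine hu.trans ?_; simp [cu, sgF, sgG, GE.ends, layX, lay])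
          (by refine hv.trans ?_; simp [cv, sgF, sgG, GE.ends, layX, lay])
      · cases σ <;>
        exact fct_pb hp hq hpq hk (by refine hu.trans ?_; simp [cu, sgF, sgG, GE.ends, layX, lay])
          (by refine hv.trans ?_; simp [cv, sgF, sgG, GE.ends, layX, lay])
    | pc' σ j ε =>
      cases ε
      · cases σ <;>
        exact fct_qa hp hq hpq hk (by refine hu.trans ?_; simp [-mul_eq_mul_left_iff, cu, sgF, sgG, GE.ends, layX, lay]; ring)
          (by refine hv.trans ?_; simp [cv, sgF, sgG, GE.ends, layX, lay])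
      · cases σ <;>
        exact fct_qb hp hq hpq hk (by refine hu.trans ?_; simp [-mul_eq_mul_left_iff, cu, sgF, sgG, GE.ends, layX, lay]; ring)
          (by refine hv.trans ?_; simp [cv, sgF, sgG, GE.ends, layX, lay])
    | cc σ j =>
      cases σ <;>
      exact fct_cc hp hq hpq hk (by refine hu.trans ?_; simp [cu, sgF, sgG, GE.ends, layX, lay])
          (by refine hv.trans ?_; simp [cv, sgF, sgG, GE.ends, layX, lay])
    | uu =>
      exact fct_uu hp hq hpq (by refine hu.trans ?_; simp [-mul_eq_mul_left_iff, cu, sgF, sgG, GE.ends, layX, lay, hc2]; ring)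
          (by refine hv.trans ?_; simp [-mul_eq_mul_left_iff, cv, sgF, sgG, GE.ends, layX, lay, hc2]; ring)
    | uq σ =>
      cases σ <;>
      exact fct_uq hp hq hpq (by refine hu.trans ?_; simp [-mul_eq_mul_left_iff, cu, sgF, sgG, GE.ends, layX, lay, hc2]; ring)
          (by refine hv.trans ?_; simp [cv, sgF, sgG, GE.ends, layX, lay, hc2])
    | ud σ =>
      cases σ <;>
      exact fct_ud hp hq hpq (by refine hu.trans ?_; simp [-mul_eq_mul_left_iff, cu, sgF, sgG, GE.ends, layX, lay, hc2]; ring)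
          (by refine hv.trans ?_; simp [-mul_eq_mul_left_iff, cv, sgF, sgG, GE.ends, layX, lay, hc2]; ring)
    | qd =>
      exact fct_qd hp hq hpq (by refine hu.trans ?_; simp [-mul_eq_mul_left_iff, cu, sgF, sgG, GE.ends, layX, lay, hc2]; ring)
          (by refine hv.trans ?_; simp [-mul_eq_mul_left_iff, cv, sgF, sgG, GE.ends, layX, lay, hc2]; ring)

/-- two open segments with the same first end, whose second ends have the same second coordinate -/
theorem apex_eq {a b c z : ℂ} {σ : Bool} (h1 : z ∈ openSegment ℝ a b)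
    (h2 : z ∈ openSegment ℝ a c) (him : cv σ b = cv σ c) (hne : cv σ a ≠ cv σ b) :
    cu σ b = cu σ c := by
  obtain ⟨p, q, hp, hq, hpq, hu, hv⟩ := seg_coord h1 σ
  obtain ⟨p', q', hp', hq', hpq', hu', hv'⟩ := seg_coord h2 σ
  have e1 : p = 1 - q := by linarith
  have e2 : p' = 1 - q' := by linarith
  subst e1 e2
  rw [him] at hv hne
  have h3 : (q - q') * (cv σ c - cv σ a) = 0 := by linear_combination hv' - hv
  rcases mul_eq_zero.1 h3 with h4 | h4
  · have e3 : q = q' := by linarith
    subst e3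
    have h5 : q * (cu σ b - cu σ c) = 0 := by linear_combination hu' - hu
    rcases mul_eq_zero.1 h5 with h6 | h6
    · exact absurd h6 hq.ne'
    · linarith
  · exact absurd (by linarith : cv σ a = cv σ c) hne

theorem vert_eq (k : GF) (hk : (shF k).vert) :
    cu (sgF k) (layX M n s e w (k.ends M).1) = cu (sgF k) (layX M n s e w (k.ends M).2) := by
  cases k with
  | ns => simp [sgF, cu, GF.ends, layX]
  | ew => simp [sgF, cu, GF.ends, layX]
  | g c =>
    cases c with
    | up σ c => cases σ <;> simp [sgF, sgG, cu, GF.ends, GE.ends, layX, lay]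
    | pd σ c => cases σ <;> simp [sgF, sgG, cu, GF.ends, GE.ends, GN.D', layX, lay] <;> ring
    | dd σ c r => cases σ <;> simp [sgF, sgG, cu, GF.ends, GE.ends, GN.D', layX, lay]
    | pc σ j ε => cases ε <;> exact absurd hk id
    | pc' σ j ε => cases ε <;> exact absurd hk id
    | _ => exact absurd hk id

theorem dotp_cross {a b c d : ℂ} {σ : Bool} (h1 : cu σ a = cu σ b) (h2 : cv σ c = cv σ d) :
    dotp a b c d = 0 := by
  cases σ <;> simp only [cu, cv, cond_true, cond_false] at h1 h2 <;> simp [dotp, h1, h2]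

end main

end Pool.Agent.Helper40.DG

namespace Pool.Agent.Helper82.DG

open Pool.Agent.Helper18.RAC Pool.Agent.Helper40.DG Complex

theorem layout_crs {M : ℕ} (hM : 1 ≤ M) {n s e w : ℝ} (hn : 2 * M + 3 < n) (hs : 2 * M + 3 < s)
    (he : 2 * M + 3 < e) (hw : 2 * M + 3 < w) : ∀ k k' : GF, k.valid M → k'.valid M → k ≠ k' →
    ∀ z, z ∈ openSegment ℝ (layX M n s e w (k.ends M).1) (layX M n s e w (k.ends M).2) →
      z ∈ openSegment ℝ (layX M n s e w (k'.ends M).1) (layX M n s e w (k'.ends M).2) →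
      dotp (layX M n s e w (k.ends M).1) (layX M n s e w (k.ends M).2)
        (layX M n s e w (k'.ends M).1) (layX M n s e w (k'.ends M).2) = 0 := by
  intro k k' hk hk' hne z hz hz'
  have f1 := seg_fct hM hn hs he hw k hk hz
  have f2 := seg_fct hM hn hs he hw k' hk' hz'
  have hM0 : (0 : ℝ) ≤ M := by positivity
  by_cases hσ : sgF k = sgF k'
  · rw [← hσ] at f2
    rcases same hM f1 f2 with h | h
    · exact absurd (ext_code h hσ) hne
    · exfalso
      cases k with
      | ns => exact absurd h id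
      | ew => exact absurd h id
      | g c =>
        cases k' with
        | ns => cases c <;> first | exact absurd h id | (rename_i ε; cases ε <;> exact absurd h id)
        | ew => cases c <;> first | exact absurd h id | (rename_i ε; cases ε <;> exact absurd h id)
        | g c' =>
          cases c with
          | yp σ j =>
            cases c' with
            | yp τ j' =>
              simp only [sgF, sgG] at hσ
              subst hσ
              refine hne ?_
              have h5 : (j : ℝ) = j' := by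
                cases σ
                · have := apex_eq (σ := false) hz hz' (by simp [cv, GF.ends, GE.ends, layX, lay])
                    (by simp [cv, GF.ends, GE.ends, layX, lay]; linarith)
                  simpa [cu, GF.ends, GE.ends, layX, lay] using this
                · have := apex_eq (σ := true) hz hz' (by simp [cv, GF.ends, GE.ends, layX, lay])
                    (by simp [cv, GF.ends, GE.ends, layX, lay]; linarith)
                  simpa [cu, GF.ends, GE.ends, layX, lay] using this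
              rw [Nat.cast_injective h5]
            | pc σ j ε => cases ε <;> exact absurd h id
            | pc' σ j ε => cases ε <;> exact absurd h id
            | _ => exact absurd h id
          | xu σ j =>
            cases c' with
            | xu τ j' =>
              simp only [sgF, sgG] at hσ
              subst hσ
              refine hne ?_
              have h5 : (j : ℝ) = j' := by
                cases σ
                · have := apex_eq (σ := false) hz hz' (by simp [cv, GF.ends, GE.ends, layX, lay])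
                    (by simp [cv, GF.ends, GE.ends, layX, lay]; linarith)
                  simpa [cu, GF.ends, GE.ends, layX, lay] using this
                · have := apex_eq (σ := true) hz hz' (by simp [cv, GF.ends, GE.ends, layX, lay])
                    (by simp [cv, GF.ends, GE.ends, layX, lay]; linarith)
                  simpa [cu, GF.ends, GE.ends, layX, lay] using this
              rw [Nat.cast_injective h5]
            | pc σ j ε => cases ε <;> exact absurd h id
            | pc' σ j ε => cases ε <;> exact absurd h id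
            | _ => exact absurd h id
          | pc σ j ε => cases ε <;> cases c' <;> exact absurd h id
          | pc' σ j ε => cases ε <;> cases c' <;> exact absurd h id
          | _ => cases c' <;> exact absurd h id
  · have hσ' : sgF k' = !(sgF k) := by
      cases h1 : sgF k <;> cases h2 : sgF k' <;> simp_all
    rw [hσ', cu_not, cv_not] at f2
    rcases cross hM f1 f2 with ⟨h1, h2⟩ | ⟨h1, h2⟩
    · have g1 := vert_eq (M := M) (n := n) (s := s) (e := e) (w := w) k h1
      have g2 := vert_eq (M := M) (n := n) (s := s) (e := e) (w := w) k' h2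
      rw [hσ', cu_not, cu_not] at g2
      exact dotp_cross g1 g2
    · exfalso
      apply hσ
      have e1 := invF_eq k
      have e2 := invF_eq k'
      rw [← h2] at e2
      generalize shF k = a at *
      cases a <;> first | exact absurd h1 id | (rw [← e1, ← e2]; rfl)

end Pool.Agent.Helper82.DG
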