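import Pool.Agent.Helper82.DG.Lay
import Pool.Agent.Helper18.RAC.Ear

/-!
# A crossing is moved to the origin
-/

set_option autoImplicit false

namespace Pool.Agent.Helper40.DG

open Pool.Agent.Helper18.RAC Pool.Agent.Helper82.DG Complex

variable {V : Type*} {G : SimpleGraph V} {f : V → ℂ}

/-- the linear part of the normalisation -/
noncomputable def linA (u : ℂ) (σ : ℝ) : ℂ →ₗ[ℝ] ℂ where
  toFun z := ⟨z.re * u.re + z.im * u.im, σ * (z.im * u.re - z.re * u.im)⟩
  map_add' z w := by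
    apply Complex.ext <;> simp <;> ring
  map_smul' r z := by
    apply Complex.ext <;> simp <;> ring

theorem linA_re (u : ℂ) (σ : ℝ) (z : ℂ) : (linA u σ z).re = z.re * u.re + z.im * u.im := rfl

theorem linA_im (u : ℂ) (σ : ℝ) (z : ℂ) : (linA u σ z).im = σ * (z.im * u.re - z.re * u.im) := rfl

theorem linA_inj {u : ℂ} (hu : u ≠ 0) {σ : ℝ} (hσ : σ ≠ 0) : Function.Injective (linA u σ) := by
  rw [← LinearMap.ker_eq_bot, LinearMap.ker_eq_bot']
  intro z hz
  have h1 : z.re * u.re + z.im * u.im = 0 := by rw [← linA_re u σ, hz]; rfl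
  have h2 : σ * (z.im * u.re - z.re * u.im) = 0 := by rw [← linA_im u σ, hz]; rfl
  have h3 := (mul_eq_zero.1 h2).resolve_left hσ
  have hpos := nsq_pos hu
  have e1 : (u.re ^ 2 + u.im ^ 2) * z.re = 0 := by linear_combination u.re * h1 - u.im * h3
  have e2 : (u.re ^ 2 + u.im ^ 2) * z.im = 0 := by linear_combination u.im * h1 + u.re * h3
  exact Complex.ext ((mul_eq_zero.1 e1).resolve_left hpos.ne')
    ((mul_eq_zero.1 e2).resolve_left hpos.ne')

theorem linA_dot (u : ℂ) {σ : ℝ} (hσ : σ ^ 2 = 1) (z w : ℂ) :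
    (linA u σ z * (starRingEnd ℂ) (linA u σ w)).re =
      (u.re ^ 2 + u.im ^ 2) * (z * (starRingEnd ℂ) w).re := by
  simp only [Complex.mul_re, Complex.conj_re, Complex.conj_im, linA_re, linA_im]
  linear_combination ((z.im * u.re - z.re * u.im) * (w.im * u.re - w.re * u.im)) * hσ

/-- open segments under an affine map -/
theorem aff_seg {T : ℂ → ℂ} {A : ℂ →ₗ[ℝ] ℂ} (hT : ∀ z w, T z - T w = A (z - w)) {a b z : ℂ} :
    z ∈ openSegment ℝ (T a) (T b) ↔ ∃ z₀ ∈ openSegment ℝ a b, T z₀ = z := by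
  have key : ∀ t : ℝ, T ((1 - t) • a + t • b) = (1 - t) • T a + t • T b := by
    intro t
    have h1 := hT ((1 - t) • a + t • b) a
    have h2 : (1 - t) • a + t • b - a = t • (b - a) := by module
    rw [h2, map_smul, ← hT] at h1
    have h3 : T ((1 - t) • a + t • b) = T a + t • (T b - T a) := by rw [← h1]; abel
    rw [h3]
    module
  constructor
  · intro h
    rw [openSegment_eq_image] at h
    obtain ⟨t, ht, rfl⟩ := h
    refine ⟨(1 - t) • a + t • b, ?_, key t⟩
    rw [openSegment_eq_image]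
    exact ⟨t, ht, rfl⟩
  · rintro ⟨z₀, h, rfl⟩
    rw [openSegment_eq_image] at h ⊢
    obtain ⟨t, ht, rfl⟩ := h
    exact ⟨t, ht, (key t).symm⟩

theorem XCross.map {T : ℂ → ℂ} {A : ℂ →ₗ[ℝ] ℂ} (hT : ∀ z w, T z - T w = A (z - w))
    (hA : Function.Injective A) {n s e w : V} (h : XCross G f n s e w) :
    XCross G (T ∘ f) n s e w := by
  have hTinj : Function.Injective T := fun z w h => by
    have h1 := hT z w
    rw [h, sub_self] at h1
    exact sub_eq_zero.1 (hA (by rw [← h1, map_zero]))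
  obtain ⟨h1, h2, h3, ⟨q, hq1, hq2⟩, h4⟩ := h
  refine ⟨h1, h2, h3, ⟨T q, (aff_seg hT).2 ⟨q, hq1, rfl⟩, (aff_seg hT).2 ⟨q, hq2, rfl⟩⟩, ?_⟩
  intro x y hxy hne1 hne2 z hz
  obtain ⟨z₀, hz₀, rfl⟩ := (aff_seg hT).1 hz
  have h5 := h4 x y hxy hne1 hne2 z₀ hz₀
  constructor
  · intro h6
    obtain ⟨z₁, hz₁, he⟩ := (aff_seg hT).1 h6
    rw [hTinj he] at hz₁
    exact h5.1 hz₁
  · intro h6
    obtain ⟨z₁, hz₁, he⟩ := (aff_seg hT).1 h6
    rw [hTinj he] at hz₁
    exact h5.2 hz₁

/-- the normalisation of a crossing -/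
theorem exists_norm (hf : IsRAC G f) {N S E W : V} (hx : XCross G f N S E W) :
    ∃ (f' : V → ℂ) (n s e w : ℝ), 0 < n ∧ 0 < s ∧ 0 < e ∧ 0 < w ∧ IsRAC G f' ∧
      f' N = ⟨0, n⟩ ∧ f' S = ⟨0, -s⟩ ∧ f' E = ⟨e, 0⟩ ∧ f' W = ⟨-w, 0⟩ ∧
      ∀ n s e w : V, XCross G f n s e w → XCross G f' n s e w := by
  obtain ⟨hNS, hEW, hne, ⟨q, hq1, hq2⟩, -⟩ := hx
  have hdot := hf.dot hNS hEW hne hq1 hq2
  obtain ⟨t, ht0, ht1, ht2, ht3⟩ := mem_openSegment_iff.1 hq1
  obtain ⟨r, hr0, hr1, hr2, hr3⟩ := mem_openSegment_iff.1 hq2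
  have hNS' : f N ≠ f S := fun h => hNS.ne (hf.inj h)
  have hEW' : f E ≠ f W := fun h => hEW.ne (hf.inj h)
  set u : ℂ := f E - q with hu
  have hure : u.re = r * ((f E).re - (f W).re) := by rw [hu, Complex.sub_re, hr2]; ring
  have huim : u.im = r * ((f E).im - (f W).im) := by rw [hu, Complex.sub_im, hr3]; ring
  have hvre : (f N - q).re = t * ((f N).re - (f S).re) := by rw [Complex.sub_re, ht2]; ring
  have hvim : (f N - q).im = t * ((f N).im - (f S).im) := by rw [Complex.sub_im, ht3]; ring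
  have hu0 : u ≠ 0 := by
    intro h
    apply hEW'
    rw [h] at hure huim
    simp only [Complex.zero_re, Complex.zero_im] at hure huim
    exact Complex.ext (by linarith [(mul_eq_zero.1 hure.symm).resolve_left hr0.ne'])
      (by linarith [(mul_eq_zero.1 huim.symm).resolve_left hr0.ne'])
  have hv0 : f N - q ≠ 0 := by
    intro h
    apply hNS'
    rw [h] at hvre hvim
    simp only [Complex.zero_re, Complex.zero_im] at hvre hvim
    exact Complex.ext (by linarith [(mul_eq_zero.1 hvre.symm).resolve_left ht0.ne'])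
      (by linarith [(mul_eq_zero.1 hvim.symm).resolve_left ht0.ne'])
  have hperp : (f N - q).re * u.re + (f N - q).im * u.im = 0 := by
    rw [hure, huim, hvre, hvim]
    unfold dotp at hdot
    linear_combination (t * r) * hdot
  have hpos := nsq_pos hu0
  have hpos2 := nsq_pos hv0
  -- the sign
  set μ : ℝ := (f N - q).im * u.re - (f N - q).re * u.im with hμ
  have hμ2 : μ ^ 2 = ((f N - q).re ^ 2 + (f N - q).im ^ 2) * (u.re ^ 2 + u.im ^ 2) := by
    rw [hμ]
    linear_combination (-((f N - q).re * u.re + (f N - q).im * u.im)) * hperp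
  have hμ0 : μ ≠ 0 := by
    intro h
    rw [h] at hμ2
    have := mul_pos hpos2 hpos
    rw [← hμ2] at this
    simp at this
  obtain ⟨σ, hσ2, hσμ⟩ : ∃ σ : ℝ, σ ^ 2 = 1 ∧ 0 < σ * μ := by
    rcases lt_or_gt_of_ne hμ0 with h | h
    · exact ⟨-1, by norm_num, by linarith⟩
    · exact ⟨1, by norm_num, by linarith⟩
  have hσ0 : σ ≠ 0 := by
    intro h
    rw [h] at hσ2
    norm_num at hσ2
  have hT : ∀ z w : ℂ, linA u σ (z - q) - linA u σ (w - q) = linA u σ (z - w) := by
    intro z w
    rw [← map_sub]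
    congr 1
    abel
  refine ⟨(fun z => linA u σ (z - q)) ∘ f, σ * μ, (1 - t) / t * (σ * μ),
    u.re ^ 2 + u.im ^ 2, (1 - r) / r * (u.re ^ 2 + u.im ^ 2), hσμ, ?_, hpos, ?_, ?_, ?_, ?_, ?_,
    ?_, ?_⟩
  · have : 0 < 1 - t := by linarith
    positivity
  · have : 0 < 1 - r := by linarith
    positivity
  · exact hf.comp (fun z => linA u σ (z - q)) (linA u σ) (linA_inj hu0 hσ0) hT _
      (linA_dot u hσ2)
  · apply Complex.ext
    · simp only [Function.comp_apply, linA_re]
      exact hperp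
    · simp only [Function.comp_apply, linA_im]
      rw [hμ]
  · have e1 : (f S - q).re = -((1 - t) / t) * (f N - q).re := by
      rw [hvre, Complex.sub_re, ht2]; field_simp; ring
    have e2 : (f S - q).im = -((1 - t) / t) * (f N - q).im := by
      rw [hvim, Complex.sub_im, ht3]; field_simp; ring
    apply Complex.ext
    · simp only [Function.comp_apply, linA_re]
      rw [e1, e2]
      linear_combination (-((1 - t) / t)) * hperp
    · simp only [Function.comp_apply, linA_im]
      rw [e1, e2, hμ]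
      ring
  · apply Complex.ext
    · simp only [Function.comp_apply, linA_re]
      rw [← hu]
      ring
    · simp only [Function.comp_apply, linA_im]
      rw [← hu]
      ring
  · have e1 : (f W - q).re = -((1 - r) / r) * u.re := by
      rw [hure, Complex.sub_re, hr2]; field_simp; ring
    have e2 : (f W - q).im = -((1 - r) / r) * u.im := by
      rw [huim, Complex.sub_im, hr3]; field_simp; ring
    apply Complex.ext
    · simp only [Function.comp_apply, linA_re]
      rw [e1, e2]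
      ring
    · simp only [Function.comp_apply, linA_im]
      rw [e1, e2]
      ring
  · intro n s e w h
    exact XCross.map (T := fun z => linA u σ (z - q)) hT (linA_inj hu0 hσ0) h

end Pool.Agent.Helper40.DG
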